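import Pool.Agent.Helper43_HAM.Stmts

/-!
# HAM, module TPE: permutation of wires
-/

namespace Pool.Agent.HAM.H47

open Pool.Agent.HAM

theorem tr_refl {Ω : Type} [Fintype Ω] [DecidableEq Ω] (U : List (Ω → Fin 3)) :
    Tr (id : Ω → Ω) U U := by
  refine ⟨[], ?_, rfl, ?_⟩
  · intro k hk
    exact absurd hk (by simp)
  · intro F _ l r ω
    simp [shift, app]

theorem tr_cross (hCRS : CrsStmt) {Ω : Type} [Fintype Ω] [DecidableEq Ω] (x y : Ω → Fin 3) :
    Tr (id : Ω → Ω) [x, y] [y, x] := by
  refine ⟨cross, ?_, ?_, ?_⟩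
  · intro k hk
    simp [cross] at hk
  · simp [cross, legal]
  · intro F hF l r ω
    have h := hCRS F hF l r (x ω) (y ω)
    simpa using h

/-- TPE: permutation of wires -/
theorem tpe (hCRS : CrsStmt) (hTCO : TcoStmt) (hTCX : TcxStmt) : TpeStmt := by
  intro Ω _ _ U U' h
  suffices H : ∀ L : List (Ω → Fin 3), 2 ≤ (L ++ U).length → Tr (id : Ω → Ω) (L ++ U) (L ++ U') by
    intro h2
    simpa using H [] (by simpa using h2)
  induction h with
  | nil =>
    intro L _
    exact tr_refl _
  | cons x _ ih =>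
    intro L hL
    have := ih (L ++ [x]) (by simpa using hL)
    simpa using this
  | swap x y l =>
    intro L _
    have h1 := hTCX Ω Ω id [y, x] L l [x, y] (tr_cross hCRS y x)
    simpa [Function.comp_def] using h1
  | trans h1 _ ih1 ih2 =>
    intro L hL
    have h3 := ih1 L hL
    have h4 := ih2 L (by
      have := h1.length_eq
      simpa [this] using hL)
    exact hTCO Ω Ω Ω id id _ _ _ h3 h4

end Pool.Agent.HAM.H47
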