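import Pool.Agent.Helper43_HAM.Stmts

/-!
# HAM, module HPL: graphs of plane hypermaps are planar
-/

namespace Pool.Agent.HAM.H47

open Pool.Agent.HAM Equiv

/-! ### Numbers of cycles -/

theorem sameCycle_permCongr {A B : Type} (e : A ≃ B) (π : Perm A) (x y : A) :
    (e.permCongr π).SameCycle (e x) (e y) ↔ π.SameCycle x y := by
  have h : ∀ n : ℤ, ((e.permCongr π) ^ n) (e x) = e ((π ^ n) x) := by
    intro n
    have h1 : (e.permCongr π) ^ n = e.permCongr (π ^ n) := by
      have := (map_zpow (e.permCongrHom) π n).symm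
      simpa using this
    rw [h1]
    simp
  constructor
  · rintro ⟨n, hn⟩
    refine ⟨n, e.injective ?_⟩
    rw [← h n, hn]
  · rintro ⟨n, hn⟩
    exact ⟨n, by rw [h n, hn]⟩

/-- counting cycles with an invariant function which separates the cycles -/
theorem cyc_of_inv {A C : Type} (π : Perm A) (F : A → C) (h1 : ∀ x, F (π x) = F x)
    (h2 : ∀ x y, F x = F y → π.SameCycle x y) (h3 : Function.Surjective F) :
    cyc π = Nat.card C := by
  have h4 : ∀ (n : ℕ) x, F ((π ^ n) x) = F x := by
    intro n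
    induction n with
    | zero => intro x; simp
    | succ n ih =>
      intro x
      rw [pow_succ, Perm.mul_apply, ih, h1]
  have h5 : ∀ x y, π.SameCycle x y → F x = F y := by
    rintro x y ⟨n, hn⟩
    cases n with
    | ofNat n =>
      rw [← hn]
      have := h4 n x
      simpa using this.symm
    | negSucc n =>
      have h6 : x = (π ^ (n + 1)) y := by
        rw [← hn, zpow_negSucc]
        simp
      rw [h6]
      exact h4 (n + 1) y
  unfold cyc
  let G : Quotient (Perm.SameCycle.setoid π) → C := Quotient.lift F h5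
  apply Nat.card_eq_of_bijective G
  constructor
  · rintro ⟨x⟩ ⟨y⟩ h
    exact Quotient.sound (h2 x y h)
  · intro c
    obtain ⟨x, hx⟩ := h3 c
    exact ⟨Quotient.mk _ x, hx⟩

theorem cyc_permCongr {A B : Type} (e : A ≃ B) (π : Perm A) : cyc (e.permCongr π) = cyc π := by
  unfold cyc
  refine (cyc_of_inv (e.permCongr π)
    (fun x => (Quotient.mk (Perm.SameCycle.setoid π) (e.symm x))) ?_ ?_ ?_)
  · intro x
    apply Quotient.sound
    change π.SameCycle _ _
    simp [Perm.SameCycle.refl]
  · intro x y h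
    have h1 : π.SameCycle (e.symm x) (e.symm y) := Quotient.exact h
    have h2 := (sameCycle_permCongr e π _ _).2 h1
    simpa using h2
  · rintro ⟨x⟩
    exact ⟨e x, by simp; rfl⟩

theorem cyc_inv {A : Type} (π : Perm A) : cyc π⁻¹ = cyc π := by
  refine (cyc_of_inv π⁻¹ (fun x => (Quotient.mk (Perm.SameCycle.setoid π) x)) ?_ ?_ ?_)
  · intro x
    apply Quotient.sound
    change π.SameCycle _ _
    exact ⟨1, by simp⟩
  · intro x y h
    have h1 : π.SameCycle x y := Quotient.exact h
    exact Perm.sameCycle_inv.2 h1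
  · rintro ⟨x⟩
    exact ⟨x, rfl⟩

/-! ### The darts of the graph of a hypermap -/

section Hyper

variable {D : Type} (f : Fin 3 → Perm D)

/-- the rotation system -/
def rot0 : Perm (D × Fin 3 × Bool) where
  toFun p := if p.2.2 then ((f (p.2.1 + 2))⁻¹ (f p.2.1 p.1), p.2.1 + 2, true)
    else (p.1, p.2.1 + 1, false)
  invFun p := if p.2.2 then ((f (p.2.1 + 1))⁻¹ (f p.2.1 p.1), p.2.1 + 1, true)
    else (p.1, p.2.1 + 2, false)
  left_inv := by
    rintro ⟨x, k, b⟩
    cases b
    · simp [add_assoc]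
    · simp only [if_true]
      have h : k + 2 + 1 = k := by revert k; decide
      rw [h]
      simp
  right_inv := by
    rintro ⟨x, k, b⟩
    cases b
    · simp [add_assoc]
    · simp only [if_true]
      have h : k + 1 + 2 = k := by revert k; decide
      rw [h]
      simp

/-- reversal -/
def sym0 : Perm (D × Fin 3 × Bool) where
  toFun p := (p.1, p.2.1, !p.2.2)
  invFun p := (p.1, p.2.1, !p.2.2)
  left_inv := by intro p; simp
  right_inv := by intro p; simp

/-- the faces -/
def fac : Perm (D × Fin 3 × Bool) := rot0 f * sym0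

theorem face_false (x : D) (k : Fin 3) :
    fac f (x, k, false) = ((f (k + 2))⁻¹ (f k x), k + 2, true) := by
  simp [fac, rot0, sym0]

theorem face_true (x : D) (k : Fin 3) :
    fac f (x, k, true) = (x, k + 1, false) := by
  simp [fac, rot0, sym0]

theorem face_sq (x : D) (k : Fin 3) :
    (fac f ^ 2) (x, k, false) = (((f (k + 2))⁻¹ * f k) x, k, false) := by
  rw [pow_two, Perm.mul_apply, face_false, face_true]
  have h : k + 2 + 1 = k := by revert k; decide
  rw [h]
  rfl

theorem face_pow (k : Fin 3) (n : ℤ) (x : D) :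
    ((fac f ^ 2) ^ n) (x, k, false) = ((((f (k + 2))⁻¹ * f k) ^ n) x, k, false) := by
  have key : ∀ x : D, (fac f ^ 2)⁻¹ (x, k, false) =
      ((((f (k + 2))⁻¹ * f k)⁻¹) x, k, false) := by
    intro x
    rw [Perm.inv_eq_iff_eq, face_sq]
    simp
  have key2 : ∀ (n : ℕ) (x : D), ((fac f ^ 2) ^ n) (x, k, false) =
      ((((f (k + 2))⁻¹ * f k) ^ n) x, k, false) := by
    intro n
    induction n with
    | zero => intro x; rfl
    | succ n ih =>
      intro x
      rw [pow_succ, Perm.mul_apply, face_sq, ih, pow_succ]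
      rfl
  have key3 : ∀ (n : ℕ) (x : D), (((fac f ^ 2)⁻¹) ^ n) (x, k, false) =
      (((((f (k + 2))⁻¹ * f k)⁻¹) ^ n) x, k, false) := by
    intro n
    induction n with
    | zero => intro x; rfl
    | succ n ih =>
      intro x
      rw [pow_succ, Perm.mul_apply, key, ih, pow_succ, Perm.mul_apply]
  cases n with
  | ofNat n =>
    have := key2 n x
    simpa using this
  | negSucc n =>
    have := key3 (n + 1) x
    rw [zpow_negSucc, zpow_negSucc, ← inv_pow, ← inv_pow]
    exact this

/-- number of faces -/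
theorem cyc_face [Finite D] :
    cyc (fac f) = ∑ k : Fin 3, cyc ((f (k + 2))⁻¹ * f k) := by
  classical
  let Q : Fin 3 → Type := fun k => Quotient (Perm.SameCycle.setoid ((f (k + 2))⁻¹ * f k))
  let F : D × Fin 3 × Bool → Σ k : Fin 3, Q k := fun p =>
    if p.2.2 then ⟨p.2.1 + 1, Quotient.mk _ p.1⟩ else ⟨p.2.1, Quotient.mk _ p.1⟩
  have hF0 : ∀ x k, F (x, k, false) = ⟨k, Quotient.mk _ x⟩ := fun x k => rfl
  have hF1 : ∀ x k, F (x, k, true) = ⟨k + 1, Quotient.mk _ x⟩ := fun x k => rfl
  have hinv : ∀ p, F (fac f p) = F p := by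
    rintro ⟨x, k, b⟩
    cases b
    · rw [face_false, hF0, hF1]
      have h : k + 2 + 1 = k := by revert k; decide
      rw [h]
      have h2 : (Quotient.mk (Perm.SameCycle.setoid ((f (k + 2))⁻¹ * f k))
          ((f (k + 2))⁻¹ (f k x))) = Quotient.mk _ x := by
        apply Quotient.sound
        change Perm.SameCycle _ _ _
        exact ⟨-1, by simp⟩
      rw [h2]
    · rw [face_true, hF0, hF1]
  have hsep0 : ∀ x k y l, F (x, k, false) = F (y, l, false) →
      (fac f).SameCycle (x, k, false) (y, l, false) := by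
    intro x k y l h
    rw [hF0, hF0] at h
    have hkl : k = l := congrArg Sigma.fst h
    subst hkl
    have h2 := Quotient.exact (eq_of_heq (Sigma.mk.inj h).2)
    obtain ⟨n, hn⟩ := (show Perm.SameCycle ((f (k + 2))⁻¹ * f k) x y from h2)
    refine ⟨2 * n, ?_⟩
    rw [zpow_mul]
    have h3 := face_pow f k n x
    rw [hn] at h3
    exact_mod_cast h3
  have hred : ∀ p : D × Fin 3 × Bool, ∃ x k, (fac f).SameCycle p (x, k, false) := by
    rintro ⟨x, k, b⟩
    cases b
    · exact ⟨x, k, Perm.SameCycle.refl _ _⟩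
    · exact ⟨x, k + 1, 1, by simp [face_true]⟩
  have hsame : ∀ p q, (fac f).SameCycle p q → F p = F q := by
    have h4 : ∀ (n : ℕ) x, F (((fac f) ^ n) x) = F x := by
      intro n
      induction n with
      | zero => intro x; simp
      | succ n ih =>
        intro x
        rw [pow_succ, Perm.mul_apply, ih, hinv]
    rintro x y ⟨n, hn⟩
    cases n with
    | ofNat n =>
      rw [← hn]
      have := h4 n x
      simpa using this.symm
    | negSucc n =>
      have h6 : x = ((fac f) ^ (n + 1)) y := by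
        rw [← hn, zpow_negSucc]
        simp
      rw [h6]
      exact h4 (n + 1) y
  have h := cyc_of_inv (fac f) F hinv (by
    intro p q h
    obtain ⟨x, k, hx⟩ := hred p
    obtain ⟨y, l, hy⟩ := hred q
    refine hx.trans (Perm.SameCycle.trans ?_ hy.symm)
    apply hsep0
    rw [← hsame _ _ hx, ← hsame _ _ hy, h]) (by
    rintro ⟨k, ⟨x⟩⟩
    exact ⟨(x, k, false), rfl⟩)
  rw [h, Nat.card_sigma]
  rfl

/-! ### The rotation system is transitive at the vertices -/

theorem rot_false (x : D) (k l : Fin 3) : (rot0 f).SameCycle (x, k, false) (x, l, false) := by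
  have h1 : ∀ k : Fin 3, (rot0 f).SameCycle (x, k, false) (x, k + 1, false) := by
    intro k
    exact ⟨1, by simp [rot0]⟩
  have h2 := h1 k
  have h3 := h1 (k + 1)
  have h4 : ∀ k l : Fin 3, l = k ∨ l = k + 1 ∨ l = k + 1 + 1 := by decide
  rcases h4 k l with h4 | h4 | h4
  · rw [h4]
  · rw [h4]
    exact h2
  · rw [h4]
    exact h2.trans h3

theorem rot_true (y : D) (k l : Fin 3) :
    (rot0 f).SameCycle ((f k)⁻¹ y, k, true) ((f l)⁻¹ y, l, true) := by
  have h1 : ∀ k : Fin 3, (rot0 f).SameCycle ((f k)⁻¹ y, k, true) ((f (k + 2))⁻¹ y, k + 2, true) := by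
    intro k
    exact ⟨1, by simp [rot0]⟩
  have h2 := h1 k
  have h3 := h1 (k + 2)
  have h4 : ∀ k l : Fin 3, l = k ∨ l = k + 2 ∨ l = k + 2 + 2 := by decide
  rcases h4 k l with h4 | h4 | h4
  · rw [h4]
  · rw [h4]
    exact h2
  · rw [h4]
    exact h2.trans h3

end Hyper

/-! ### Darts -/

section Darts

variable {D : Type} (α σ : Perm D)

/-- the three kinds of edges -/
def ff : Fin 3 → Perm D := ![1, α, σ]

theorem hgr_adj (x : D) (k : Fin 3) : (hgr α σ).Adj (x, false) (ff α σ k x, true) := by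
  left
  refine ⟨rfl, rfl, ?_⟩
  fin_cases k
  · left; rfl
  · right; left; rfl
  · right; right; rfl

/-- the darts -/
def dt (p : D × Fin 3 × Bool) : (hgr α σ).Dart :=
  if p.2.2 then ⟨((ff α σ p.2.1 p.1, true), (p.1, false)), (hgr_adj α σ p.1 p.2.1).symm⟩
  else ⟨((p.1, false), (ff α σ p.2.1 p.1, true)), hgr_adj α σ p.1 p.2.1⟩

theorem dt_false (x : D) (k : Fin 3) :
    dt α σ (x, k, false) = ⟨((x, false), (ff α σ k x, true)), hgr_adj α σ x k⟩ := rfl

theorem dt_true (x : D) (k : Fin 3) :
    dt α σ (x, k, true) = ⟨((ff α σ k x, true), (x, false)), (hgr_adj α σ x k).symm⟩ := rfl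

variable {α σ}

theorem ff_inj (h1 : ∀ d, α d ≠ d) (h2 : ∀ d, σ d ≠ d) (h3 : ∀ d, α d ≠ σ d) (x : D) (k l : Fin 3)
    (h : ff α σ k x = ff α σ l x) : k = l := by
  have h1' := h1 x
  have h2' := h2 x
  have h3' := h3 x
  have e0 : ff α σ 0 x = x := rfl
  have e1 : ff α σ 1 x = α x := rfl
  have e2 : ff α σ 2 x = σ x := rfl
  fin_cases k <;> fin_cases l <;> first | rfl | (exfalso; simp [e0, e1, e2] at h; grind)

theorem dt_bij (h1 : ∀ d, α d ≠ d) (h2 : ∀ d, σ d ≠ d) (h3 : ∀ d, α d ≠ σ d) :
    Function.Bijective (dt α σ) := by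
  constructor
  · rintro ⟨x, k, b⟩ ⟨y, l, c⟩ h
    have h4 := congrArg (fun d => d.fst) h
    have h5 := congrArg (fun d => d.snd) h
    cases b <;> cases c
    · simp only [dt_false, Prod.mk.injEq] at h4 h5
      obtain ⟨rfl, _⟩ := h4
      rw [ff_inj h1 h2 h3 x k l h5.1]
    · simp [dt_false, dt_true] at h4
    · simp [dt_false, dt_true] at h4
    · simp only [dt_true, Prod.mk.injEq] at h4 h5
      obtain ⟨rfl, _⟩ := h5
      rw [ff_inj h1 h2 h3 x k l h4.1]
  · rintro ⟨⟨⟨x, b⟩, ⟨y, c⟩⟩, h⟩
    rcases h with ⟨hb, hc, h⟩ | ⟨hb, hc, h⟩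
    · have hb' : b = false := hb
      have hc' : c = true := hc
      subst hb' hc'
      rcases h with h | h | h
      · have h' : y = x := h
        subst h'
        exact ⟨(y, 0, false), rfl⟩
      · have h' : y = α x := h
        subst h'
        exact ⟨(x, 1, false), rfl⟩
      · have h' : y = σ x := h
        subst h'
        exact ⟨(x, 2, false), rfl⟩
    · have hb' : c = false := hb
      have hc' : b = true := hc
      subst hb' hc'
      rcases h with h | h | h
      · have h' : x = y := h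
        subst h'
        exact ⟨(x, 0, true), rfl⟩
      · have h' : x = α y := h
        subst h'
        exact ⟨(y, 1, true), rfl⟩
      · have h' : x = σ y := h
        subst h'
        exact ⟨(y, 2, true), rfl⟩

theorem cyc_sum : ∑ k : Fin 3, cyc ((ff α σ (k + 2))⁻¹ * ff α σ k) =
    cyc α + cyc σ + cyc (α⁻¹ * σ) := by
  rw [Fin.sum_univ_three]
  have e0 : (ff α σ (0 + 2))⁻¹ * ff α σ 0 = σ⁻¹ := by
    change σ⁻¹ * 1 = σ⁻¹
    simp
  have e1 : (ff α σ (1 + 2))⁻¹ * ff α σ 1 = α := by
    change (1 : Perm D)⁻¹ * α = α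
    simp
  have e2 : (ff α σ (2 + 2))⁻¹ * ff α σ 2 = α⁻¹ * σ := rfl
  rw [e0, e1, e2, cyc_inv]
  ring

end Darts

/-- HPL: graphs of plane hypermaps are planar -/
theorem hpl : HplStmt := by
  classical
  intro D _ α σ h1 h2 h3 hp
  let e : (D × Fin 3 × Bool) ≃ (hgr α σ).Dart := Equiv.ofBijective _ (dt_bij h1 h2 h3)
  have he : ∀ p, e p = dt α σ p := fun p => rfl
  let ρ : Perm (hgr α σ).Dart := e.permCongr (rot0 (ff α σ))
  have hρ : ∀ p, ρ (e p) = e (rot0 (ff α σ) p) := by
    intro p
    simp [ρ]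
  have hsym : dartSymm (hgr α σ) = e.permCongr sym0 := by
    ext1 d
    obtain ⟨⟨x, k, b⟩, rfl⟩ := e.surjective d
    rw [permCongr_apply, symm_apply_apply]
    cases b
    · rfl
    · rfl
  refine ⟨ρ, ?_, ?_, ?_⟩
  · intro d
    obtain ⟨⟨x, k, b⟩, rfl⟩ := e.surjective d
    rw [hρ]
    cases b
    · rfl
    · change ((ff α σ (k + 2)) ((ff α σ (k + 2))⁻¹ (ff α σ k x)), true) = (ff α σ k x, true)
      simp
  · intro d d' h
    obtain ⟨⟨x, k, b⟩, rfl⟩ := e.surjective d
    obtain ⟨⟨y, l, c⟩, rfl⟩ := e.surjective d'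
    change (e.permCongr (rot0 (ff α σ))).SameCycle _ _
    rw [sameCycle_permCongr]
    cases b <;> cases c
    · have h4 : (x, false) = (y, false) := h
      have h5 : x = y := congrArg Prod.fst h4
      rw [h5]
      exact rot_false _ _ _ _
    · have h4 : (x, false) = (ff α σ l y, true) := h
      exact absurd (congrArg Prod.snd h4) (by simp)
    · have h4 : (ff α σ k x, true) = (y, false) := h
      exact absurd (congrArg Prod.snd h4) (by simp)
    · have h4 : (ff α σ k x, true) = (ff α σ l y, true) := h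
      have h5 : ff α σ k x = ff α σ l y := congrArg Prod.fst h4
      have h6 := rot_true (ff α σ) (ff α σ k x) k l
      have h7 : (ff α σ l)⁻¹ (ff α σ k x) = y := by rw [h5]; simp
      rw [h7] at h6
      simpa using h6
  · have h4 : ρ * dartSymm (hgr α σ) = e.permCongr (fac (ff α σ)) := by
      rw [hsym]
      ext1 d
      simp [ρ, fac]
    rw [h4, cyc_permCongr, cyc_face, cyc_sum, hp]
    have h5 : Nat.card (hgr α σ).Dart = Nat.card (D × Fin 3 × Bool) := (Nat.card_congr e).symm
    have h6 := (hgr α σ).dart_card_eq_twice_card_edges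
    have h7 : Nat.card (hgr α σ).Dart = 2 * (hgr α σ).edgeSet.ncard := by
      rw [Nat.card_eq_fintype_card, h6, Set.ncard_eq_toFinset_card']
      rfl
    have h8 : Nat.card (D × Fin 3 × Bool) = 6 * Fintype.card D := by
      simp [Nat.card_eq_fintype_card]
      ring
    have h9 : Nat.card (D × Bool) = 2 * Fintype.card D := by
      simp [Nat.card_eq_fintype_card]
      ring
    omega

end Pool.Agent.HAM.H47
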